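import Mathlib
import Pool.Agent.H204R3.SP.Slopes

/-!
# Weil numbers with admissible slopes
-/

namespace Pool.Agent.H977R3.WN

open NumberField Module Pool.Agent.H204R3.SP

/-- The CM fields `F` and `F'` are independent: for all complex embeddings `φ` of `F` and `ψ` of
`F'` some automorphism of the complex numbers is the identity on `φ (F)` and the complex conjugation
on `ψ (F')`. -/
def Indep (F F' : Type*) [Field F] [Field F'] : Prop :=
  ∀ (φ : F →+* ℂ) (ψ : F' →+* ℂ), ∃ σ : ℂ ≃+* ℂ,
    (∀ x, σ (φ x) = φ x) ∧ ∀ y, σ (ψ y) = (starRingEnd ℂ) (ψ y)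

/-- The Weil number `π` with `π * conj π = q = p ^ a` has the slopes `s = (1 + u / N) / 2`: for
every embedding `τ` of its field into an algebraic closure of `ℚ_p` one has `|τ π| = |q| ^ s` with
`N * (2 * s - 1) = u τ`. -/
def HasSlopes (p a : ℕ) [Fact p.Prime] {F : Type*} [Field F] (π : F) (N : ℕ)
    (u : (F →+* PadicAlgCl p) → ℤ) : Prop :=
  ∀ τ : F →+* PadicAlgCl p, ‖τ π‖ ^ (2 * N) = ‖(p : PadicAlgCl p) ^ a‖ ^ ((N : ℤ) + u τ)

/-- Some group of automorphisms of the field `PadicAlgCl p` has an orbit of `n` elements on the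
embeddings of the field of `π` over which the sum of the numbers `N * (2 * s - 1)`, `s` the slope,
is prime to `r`, for some `N` for which all these numbers are integers. -/
def OrbitCondition (p a : ℕ) [Fact p.Prime] {F : Type*} [Field F] (π : F) (n r : ℕ) : Prop :=
  ∃ (N : ℕ) (u : (F →+* PadicAlgCl p) → ℤ) (H : Subgroup (PadicAlgCl p ≃+* PadicAlgCl p))
    (τ : F →+* PadicAlgCl p) (O : Finset (F →+* PadicAlgCl p)), 0 < N ∧ HasSlopes p a π N u ∧
    (∀ τ', τ' ∈ O ↔ ∃ σ ∈ H, τ' = (σ : PadicAlgCl p →+* PadicAlgCl p).comp τ) ∧ O.card = n ∧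
    ¬ (r : ℤ) ∣ ∑ τ' ∈ O, u τ'

/-- The field of the Weil number `π` has degree `2 r ^ k` for an odd prime `r`, and the orbit
condition holds; or it has degree `2 ^ (k + 1)` and a discriminant that is not a square, and the
slopes are odd (for instance `0` and `1`). -/
def Admissible (p a : ℕ) [Fact p.Prime] {F : Type*} [Field F] [NumberField F] (π : F) : Prop :=
  (∃ r k : ℕ, r.Prime ∧ r ≠ 2 ∧ finrank ℚ F = 2 * r ^ k ∧ OrbitCondition p a π (r ^ k) r) ∨
  (∃ k : ℕ, finrank ℚ F = 2 ^ (k + 1) ∧ ¬ IsSquare (discr F) ∧ OddSlopes p a π)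

/-- No imaginary quadratic field embeds in both fields. -/
def NoCommonQuadratic (F F' : Type*) [Field F] [Field F'] [Algebra ℚ F] [Algebra ℚ F'] : Prop :=
  ∀ d : ℚ, 0 < d → ¬ ((∃ x : F, x ^ 2 = algebraMap ℚ F (-d)) ∧
    ∃ y : F', y ^ 2 = algebraMap ℚ F' (-d))

/-- The degree of `F` is `2 r ^ k` for an odd prime `r` that does not divide the degree of the
Galois closure of `F'`. -/
def PrimeToClosure (F F' : Type*) [Field F] [NumberField F] [Field F'] [NumberField F'] : Prop :=
  ∃ r k : ℕ, r.Prime ∧ r ≠ 2 ∧ finrank ℚ F = 2 * r ^ k ∧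
    ¬ r ∣ finrank ℚ (IntermediateField.normalClosure ℚ F' ℂ)

/-- The fields `F` and `F'` are independent, or they contain no common imaginary quadratic field
and one of them has degree `2 r ^ k` for an odd prime `r` that does not divide the degree of the
Galois closure of the other. -/
def Compatible (F F' : Type*) [Field F] [NumberField F] [Field F'] [NumberField F'] : Prop :=
  Indep F F' ∨ (NoCommonQuadratic F F' ∧ (PrimeToClosure F F' ∨ PrimeToClosure F' F))

end Pool.Agent.H977R3.WN
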