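import Mathlib
import Pool.Agent.H977R3.CM.Transfer
import Pool.Agent.H977R3.CM.Tower
import Pool.Agent.H977R3.CM.Closure
import Pool.Agent.H977R3.WN.Defs
import Pool.Agent.H204R3.CM.Nondeg

/-!
# Independence of CM fields and common imaginary quadratic subfields
-/

set_option linter.unusedSectionVars false

namespace Pool.Agent.H977R3.WN

open NumberField Module MulAction Pool.Agent.H204R3.CM Pool.Agent.H977R3.CM Pool.Agent.H925R2

/-- A Sylow subgroup has orbits with `r ^ k` elements. -/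
theorem sylow_orbit {R : Type*} {inv : R → R} {G : Type*} [Group G] [MulAction G R] [Fintype R]
    [Finite G] [DecidableEq R] [IsPretransitive G R] (hinv : ∀ x, inv (inv x) = x)
    (hne : ∀ x, inv x ≠ x) (hG : ∀ (g : G) (x : R), g • inv x = inv (g • x)) (r k : ℕ)
    [Fact r.Prime] (hr : r ≠ 2) (hR : Fintype.card R = 2 * r ^ k) (S : Sylow r G) (x₀ : R) :
    (orbit (S : Subgroup G) x₀).ncard = r ^ k := by
  classical
  have hodd : Odd (orbit (S : Subgroup G) x₀).ncard := by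
    obtain ⟨n, hn⟩ := S.isPGroup'.card_orbit (α := R) x₀
    have h1 : (orbit (S : Subgroup G) x₀).ncard = r ^ n := hn
    rw [h1]
    exact ((Fact.out : r.Prime).odd_of_ne_two hr).pow
  have hhalf : IsHalf inv (orbit (S : Subgroup G) x₀).toFinset := by
    intro x
    rw [Set.mem_toFinset, Set.mem_toFinset]
    refine ⟨not_mem_orbit hinv hne hG _ x₀ (Set.toFinite _) hodd x, fun h => ?_⟩
    obtain ⟨s, hs | hs⟩ := sylow_pairs hinv hne hG r k hR S x₀ x
    · exact ⟨s, hs⟩
    · exact absurd ⟨s, hs⟩ h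
  have h2 := hhalf.card hinv
  rw [Set.ncard_eq_toFinset_card']
  omega

/-- The combinatorial part: if no element fixes `x₀` and conjugates `y₀`, there is a sign character
which is trivial on the stabilizers of `x₀` and `y₀` and nontrivial at the conjugation. -/
theorem exists_character {R R' : Type*} {inv : R → R} {inv' : R' → R'} {G : Type*} [Group G]
    [MulAction G R] [MulAction G R'] [Fintype R] [Finite G] [IsPretransitive G R]
    (hinv : ∀ x, inv (inv x) = x) (hne : ∀ x, inv x ≠ x)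
    (hinv' : ∀ y, inv' (inv' y) = y)
    (hG : ∀ (g : G) (x : R), g • inv x = inv (g • x))
    (hG' : ∀ (g : G) (y : R'), g • inv' y = inv' (g • y)) (cc : G)
    (hcc : ∀ x : R, cc • x = inv x) (hcc' : ∀ y : R', cc • y = inv' y) (r k : ℕ)
    [Fact r.Prime] (hr : r ≠ 2) (hR : Fintype.card R = 2 * r ^ k) (S : Sylow r G)
    (htriv : ∀ s : G, s ∈ S → ∀ y : R', s • y = y) (x₀ : R) (y₀ : R')
    (hno : ∀ g : G, g • x₀ = x₀ → g • y₀ ≠ inv' y₀) :
    ∃ χ : G → ℤ, (∀ g, χ g = 1 ∨ χ g = -1) ∧ (∀ g g', χ (g * g') = χ g * χ g') ∧ χ cc = -1 ∧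
      (∀ g, g • x₀ = x₀ → χ g = 1) ∧ (∀ g, g • y₀ = y₀ → χ g = 1) := by
  classical
  have hodd : Odd (r ^ k) := ((Fact.out : r.Prime).odd_of_ne_two hr).pow
  have hcard := sylow_orbit hinv hne hG r k hr hR S x₀
  let O : Finset R := Finset.univ.filter (fun x => x ∈ orbit (S : Subgroup G) x₀)
  have hO : ∀ x, x ∈ O ↔ x ∈ orbit (S : Subgroup G) x₀ := fun x => by
    simp only [O, Finset.mem_filter, Finset.mem_univ, true_and]
  have hhalf : IsHalf inv O :=
    isHalf_orbit hinv hne hG (S : Subgroup G) x₀ (r ^ k) hodd hcard hR O hO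
  let ε : R → ℤ := fun x => if x ∈ O then 1 else -1
  have hε : ∀ x, ε x = 1 ∨ ε x = -1 := by
    intro x
    simp only [ε]
    split_ifs
    · exact Or.inl rfl
    · exact Or.inr rfl
  have hεi : ∀ x, ε (inv x) = -ε x := by
    intro x
    simp only [ε]
    by_cases hx : x ∈ O
    · rw [if_pos hx, if_neg ((hhalf x).1 hx)]
    · rw [if_neg hx, if_pos, neg_neg]
      by_contra h
      exact hx ((hhalf x).2 h)
  have hε0 : ε x₀ = 1 := if_pos ((hO x₀).2 (mem_orbit_self x₀))
  -- the relation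
  let D : R → R' → Prop := fun x y => ∃ g : G, g • x₀ = x ∧ g • y₀ = y
  have hD : ∀ (g : G) x y, D (g • x) (g • y) ↔ D x y := by
    intro g x y
    constructor
    · rintro ⟨h, h1, h2⟩
      exact ⟨g⁻¹ * h, by rw [mul_smul, h1, inv_smul_smul], by rw [mul_smul, h2, inv_smul_smul]⟩
    · rintro ⟨h, rfl, rfl⟩
      exact ⟨g * h, mul_smul _ _ _, mul_smul _ _ _⟩
  let B : R → R' → ℤ := fun x y => (if D x y then 1 else 0) - (if D x (inv' y) then 1 else 0)
  have hB : ∀ (g : G) x y, B (g • x) (g • y) = B x y := by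
    intro g x y
    have h2 : D (g • x) (inv' (g • y)) ↔ D x (inv' y) := by
      rw [← hG', hD]
    simp only [B, hD, h2]
  have hBi : ∀ x y, B (inv x) y = -B x y := by
    intro x y
    have h1 : D (inv x) y ↔ D x (inv' y) := by
      rw [← hD cc, hcc, hcc', hinv]
    have h2 : D (inv x) (inv' y) ↔ D x y := by
      rw [← hD cc, hcc, hcc', hinv, hinv']
    simp only [B, h1, h2]
    ring
  let h : R' → ℤ := fun y => B x₀ y
  have hB2 : ∀ x y, B x y = ε x * h y := by
    have h1 : ∀ x, x ∈ O → ∀ y, B x y = h y := by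
      intro x hx y
      rw [hO] at hx
      obtain ⟨s, rfl⟩ := hx
      have h2 := hB (s : G) x₀ y
      rw [htriv (s : G) s.2] at h2
      exact h2
    intro x y
    by_cases hx : x ∈ O
    · rw [h1 x hx]
      simp only [ε, if_pos hx, one_mul]
    · have h2 : inv x ∈ O := by
        by_contra h3
        exact hx ((hhalf x).2 h3)
      have h3 := h1 (inv x) h2 y
      rw [hBi] at h3
      simp only [ε, if_neg hx]
      linarith
  have hh0 : h y₀ = 1 := by
    have h1 : D x₀ y₀ := ⟨1, one_smul _ _, one_smul _ _⟩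
    have h2 : ¬ D x₀ (inv' y₀) := by
      rintro ⟨g, hg1, hg2⟩
      exact hno g hg1 hg2
    simp only [h, B, if_pos h1, if_neg h2, sub_zero]
  have hkey : ∀ (g : G) x, ε (g • x) * h (g • y₀) = ε x := by
    intro g x
    rw [← hB2, hB, hB2, hh0, mul_one]
  have hχ : ∀ g : G, h (g • y₀) = 1 ∨ h (g • y₀) = -1 := by
    intro g
    have h1 := hkey g x₀
    rw [hε0] at h1
    rcases hε (g • x₀) with h2 | h2
    · left
      rw [h2, one_mul] at h1
      exact h1
    · right
      rw [h2] at h1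
      linarith
  have hεg : ∀ (g : G) x, ε (g • x) = h (g • y₀) * ε x := by
    intro g x
    have h1 := hkey g x
    rcases hχ g with h2 | h2
    · rw [h2] at h1 ⊢
      linarith
    · rw [h2] at h1 ⊢
      linarith
  refine ⟨fun g => h (g • y₀), hχ, ?_, ?_, ?_, ?_⟩
  · intro g g'
    have h1 := hεg (g * g') x₀
    rw [mul_smul g g' x₀, hεg, hεg, hε0] at h1
    simp only [mul_one] at h1
    exact h1.symm
  · have h1 := hεg cc x₀
    rw [hcc, hεi, hε0] at h1
    simp only [mul_one] at h1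
    exact h1.symm
  · intro g hg
    have h1 := hεg g x₀
    rw [hg, hε0] at h1
    simp only [mul_one] at h1
    exact h1.symm
  · intro g hg
    change h (g • y₀) = 1
    rw [hg, hh0]

/-- The field cut out by a sign character. -/
theorem exists_sqrt {L : Type*} [Field L] [NumberField L] [IsGalois ℚ L] (j : L →+* ℂ)
    (χ : (L ≃ₐ[ℚ] L) → ℤ) (h1 : ∀ g, χ g = 1 ∨ χ g = -1)
    (h2 : ∀ g g', χ (g * g') = χ g * χ g') (cc : L ≃ₐ[ℚ] L)
    (hcc : ∀ x, (starRingEnd ℂ) (j x) = j (cc x)) (h3 : χ cc = -1) :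
    ∃ (δ : L) (d : ℚ), 0 < d ∧ δ ^ 2 = algebraMap ℚ L (-d) ∧ ∀ g : L ≃ₐ[ℚ] L, g δ = χ g * δ := by
  classical
  obtain ⟨θ, hθ⟩ : ∃ θ : L, ∑ g : L ≃ₐ[ℚ] L, (χ g : L) * g θ ≠ 0 := by
    by_contra hcon
    push Not at hcon
    let f : (L ≃ₐ[ℚ] L) → (L →* L) := fun g => (g : L →* L)
    have hf : Function.Injective f := by
      intro a b hab
      ext x
      exact DFunLike.congr_fun hab x
    have hli := (linearIndependent_monoidHom L L).comp f hf
    rw [Fintype.linearIndependent_iff] at hli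
    have h4 := hli (fun g => (χ g : L)) (by
      funext θ
      rw [Finset.sum_apply]
      exact hcon θ) cc
    rw [h3] at h4
    norm_num at h4
  set δ : L := ∑ g : L ≃ₐ[ℚ] L, (χ g : L) * g θ with hδ
  have hg : ∀ g : L ≃ₐ[ℚ] L, g δ = χ g * δ := by
    intro g
    rw [hδ, map_sum, Finset.mul_sum]
    rw [← Equiv.sum_comp (Equiv.mulLeft g)
      (fun g' : L ≃ₐ[ℚ] L => (χ g : L) * ((χ g' : L) * g' θ))]
    refine Finset.sum_congr rfl fun g' _ => ?_
    rw [map_mul, map_intCast, Equiv.coe_mulLeft, h2, AlgEquiv.mul_apply]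
    have h4 : (χ g : L) * χ g = 1 := by
      rcases h1 g with h | h <;> rw [h] <;> norm_num
    push_cast
    linear_combination (-(χ g' : L) * g (g' θ)) * h4
  obtain ⟨q, hq⟩ : δ ^ 2 ∈ Set.range (algebraMap ℚ L) := by
    rw [IsGalois.mem_range_algebraMap_iff_fixed]
    intro g
    rw [map_pow, hg, mul_pow]
    rcases h1 g with h | h <;> rw [h] <;> norm_num
  have hjδ : (starRingEnd ℂ) (j δ) = -j δ := by
    rw [hcc, hg, h3]
    push_cast
    rw [neg_one_mul, map_neg]
  have hre : (j δ).re = 0 := by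
    have h4 := congrArg Complex.re hjδ
    rw [Complex.conj_re, Complex.neg_re] at h4
    linarith
  have him : (j δ).im ≠ 0 := by
    intro h4
    apply hθ
    apply j.injective
    rw [map_zero]
    exact Complex.ext hre h4
  have hq2 : (q : ℝ) = -((j δ).im ^ 2) := by
    have h4 := congrArg j hq
    rw [map_pow, eq_ratCast, map_ratCast] at h4
    have h5 := congrArg Complex.re h4
    rw [Complex.ratCast_re, sq, Complex.mul_re, hre] at h5
    rw [h5]
    ring
  refine ⟨δ, -q, ?_, by rw [neg_neg, hq], hg⟩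
  have h5 : (0 : ℝ) < ((-q : ℚ) : ℝ) := by
    push_cast
    rw [hq2, neg_neg]
    positivity
  exact_mod_cast h5

/-- An element fixed by all automorphisms that fix the embedding `φ` lies in the image of `φ`. -/
theorem mem_range_of_fixed {F L : Type*} [Field F] [NumberField F] [Field L] [NumberField L]
    [IsGalois ℚ L] (φ : F →+* L) (δ : L) (h : ∀ g : L ≃ₐ[ℚ] L, g • φ = φ → g δ = δ) :
    ∃ x : F, φ x = δ := by
  let φ' : F →ₐ[ℚ] L := RingHom.equivRatAlgHom F L φ
  have h1 : δ ∈ φ'.fieldRange := by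
    rw [← IsGalois.fixedField_fixingSubgroup φ'.fieldRange, IntermediateField.mem_fixedField_iff]
    intro g hg
    apply h
    ext x
    rw [IntermediateField.mem_fixingSubgroup_iff] at hg
    exact hg (φ x) ⟨x, rfl⟩
  obtain ⟨x, hx⟩ := h1
  exact ⟨x, hx⟩

/-- Independence over a Galois extension. -/
theorem exists_flip {F F' L : Type*} [Field F] [NumberField F] [IsCMField F] [Field F']
    [NumberField F'] [IsCMField F'] [Field L] [NumberField L] [IsGalois ℚ L] (j : L →+* ℂ)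
    (h : ∀ ψ : F →+* ℂ, ∃ φ : F →+* L, j.comp φ = ψ)
    (h' : ∀ ψ : F' →+* ℂ, ∃ φ : F' →+* L, j.comp φ = ψ) (r k : ℕ) (hr : r.Prime) (hr2 : r ≠ 2)
    (hdeg : finrank ℚ F = 2 * r ^ k) (hno : NoOrder F' r) (hquad : NoCommonQuadratic F F')
    (φ₀ : F →+* L) (ψ₀ : F' →+* L) : ∃ g : L ≃ₐ[ℚ] L, g • φ₀ = φ₀ ∧ g • ψ₀ = cbar ψ₀ := by
  classical
  by_contra hcon
  push Not at hcon
  have _ : Fact r.Prime := ⟨hr⟩
  obtain ⟨cc, hcc⟩ := exists_gal j (starRingAut : ℂ ≃+* ℂ)
  have hcc1 : ∀ {K : Type _} [Field K] [NumberField K] [IsCMField K] (φ : K →+* L),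
      cc • φ = cbar φ := by
    intro K _ _ _ φ
    ext x
    apply j.injective
    have h1 := RingHom.congr_fun (comp_cbar j φ) x
    rw [ComplexEmbedding.conjugate_coe_eq] at h1
    rw [emb_smul_apply, ← hcc]
    exact h1.symm
  have hcc1' : ∀ (φ : F' →+* L), cc • φ = cbar φ := by
    intro φ
    ext x
    apply j.injective
    have h1 := RingHom.congr_fun (comp_cbar j φ) x
    rw [ComplexEmbedding.conjugate_coe_eq] at h1
    rw [emb_smul_apply, ← hcc]
    exact h1.symm
  obtain ⟨S⟩ : Nonempty (Sylow r (L ≃ₐ[ℚ] L)) := inferInstance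
  obtain ⟨χ, hχ1, hχ2, hχ3, hχ4, hχ5⟩ := exists_character (G := L ≃ₐ[ℚ] L) (R := F →+* L)
    (R' := F' →+* L) (inv := cbar) (inv' := cbar) (fun x => cbar_cbar x) (fun x => cbar_ne x)
    (fun x => cbar_cbar x) (fun g x => rfl) (fun g x => rfl) cc hcc1 hcc1' r k hr2
    (by rw [card_emb j h, hdeg]) S
    (fun s hs y => trivial_of_noOrder r (noOrder_gal j h' r hno) (S : Subgroup _) S.isPGroup' s hs y)
    φ₀ ψ₀ hcon
  obtain ⟨δ, d, hd, hδ, hg⟩ := exists_sqrt j χ hχ1 hχ2 cc hcc hχ3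
  obtain ⟨x, hx⟩ := mem_range_of_fixed φ₀ δ (fun g hgφ => by rw [hg, hχ4 g hgφ]; simp)
  obtain ⟨y, hy⟩ := mem_range_of_fixed ψ₀ δ (fun g hgφ => by rw [hg, hχ5 g hgφ]; simp)
  refine hquad d hd ⟨⟨x, ?_⟩, ⟨y, ?_⟩⟩
  · apply φ₀.injective
    rw [map_pow, hx, hδ, eq_ratCast, eq_ratCast, map_ratCast]
  · apply ψ₀.injective
    rw [map_pow, hy, hδ, eq_ratCast, eq_ratCast, map_ratCast]

theorem Indep.symm {F F' : Type*} [Field F] [Field F'] (h : Indep F F') : Indep F' F := by
  intro φ ψ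
  obtain ⟨σ, h1, h2⟩ := h ψ φ
  refine ⟨σ.trans (starRingAut : ℂ ≃+* ℂ), fun x => ?_, fun y => ?_⟩
  · change (starRingEnd ℂ) (σ (φ x)) = φ x
    rw [h2, Complex.conj_conj]
  · change (starRingEnd ℂ) (σ (ψ y)) = (starRingEnd ℂ) (ψ y)
    rw [h1]

/-- The pair of the fields `F` and `F'`. -/
def Two (F F' : Type) : Bool → Type := fun b => Bool.rec F' F b

instance {F F' : Type} [i1 : Field F] [i2 : Field F'] (b : Bool) : Field (Two F F' b) :=
  match b with
  | true => i1
  | false => i2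

instance {F F' : Type} [Field F] [Field F'] [i1 : NumberField F] [i2 : NumberField F'] (b : Bool) :
    NumberField (Two F F' b) :=
  match b with
  | true => i1
  | false => i2

theorem indep_of_noOrder {F F' : Type} [Field F] [NumberField F] [IsCMField F] [Field F']
    [NumberField F'] [IsCMField F'] (r k : ℕ) (hr : r.Prime) (hr2 : r ≠ 2)
    (hdeg : finrank ℚ F = 2 * r ^ k) (hno : NoOrder F' r) (hquad : NoCommonQuadratic F F') :
    Indep F F' := by
  obtain ⟨L, hL1, hL2, j, h⟩ := exists_galois (Two F F')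
  have h1 : ∀ ψ : F →+* ℂ, ∃ φ : F →+* L, j.comp φ = ψ := h true
  have h2 : ∀ ψ : F' →+* ℂ, ∃ φ : F' →+* L, j.comp φ = ψ := h false
  intro φ ψ
  obtain ⟨φ₀, rfl⟩ := h1 φ
  obtain ⟨ψ₀, rfl⟩ := h2 ψ
  obtain ⟨g, hg1, hg2⟩ := exists_flip j h1 h2 r k hr hr2 hdeg hno hquad φ₀ ψ₀
  obtain ⟨σ, hσ⟩ := exists_aut j (g : L ≃+* L)
  refine ⟨σ, fun x => ?_, fun y => ?_⟩
  · have h3 := RingHom.congr_fun hg1 x
    change σ (j (φ₀ x)) = j (φ₀ x)
    rw [hσ]
    exact congrArg j h3
  · have h3 := RingHom.congr_fun hg2 y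
    have h4 := RingHom.congr_fun (comp_cbar j ψ₀) y
    rw [ComplexEmbedding.conjugate_coe_eq] at h4
    change σ (j (ψ₀ y)) = _
    rw [hσ]
    exact (congrArg j h3).trans h4

theorem indep_of_compatible {F F' : Type} [Field F] [NumberField F] [IsCMField F] [Field F']
    [NumberField F'] [IsCMField F'] (h : Compatible F F') : Indep F F' := by
  rcases h with h | ⟨hq, ⟨r, k, hr, hr2, hdeg, hnd⟩ | ⟨r, k, hr, hr2, hdeg, hnd⟩⟩
  · exact h
  · exact indep_of_noOrder r k hr hr2 hdeg (noOrder_of_closure F' r hr hnd) hq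
  · refine (indep_of_noOrder r k hr hr2 hdeg (noOrder_of_closure F r hr hnd) ?_).symm
    intro d hd hd'
    exact hq d hd ⟨hd'.2, hd'.1⟩

end Pool.Agent.H977R3.WN
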