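import Mathlib
import Pool.Agent.H977R3.WN.Balance
import Pool.Agent.H977R3.CM.Transfer
import Pool.Agent.H977R3.CM.Indep

/-!
# Criteria for the absence of relations
-/

set_option linter.unusedSectionVars false

namespace Pool.Agent.H977R3.WN

open NumberField Module MulAction Pool.Agent.H204R3.CM Pool.Agent.H204R3.SP Pool.Agent.H204R3.GP
  Pool.Agent.H977R3.CM

/-- The translates of the function `e` satisfy no relation besides antisymmetry. -/
def Single {F : Type*} [Field F] [NumberField F] [IsCMField F] {L : Type*} [Field L] [NumberField L]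
    (e : (F →+* L) → ℤ) : Prop :=
  ∀ c : (F →+* L) → ℤ, (∀ φ, c (cbar φ) = -c φ) →
    (∀ σ : L ≃ₐ[ℚ] L, ∑ φ : (F →+* L), c φ * e (σ • φ) = 0) → ∀ φ, c φ = 0

theorem slopes_cbar {p : ℕ} [Fact p.Prime] {a : ℕ} (ha : 0 < a) {F : Type*} [Field F]
    [NumberField F] [IsCMField F] {π : F} (hw : π * IsCMField.complexConj F π = (p : F) ^ a)
    {N : ℕ} {u : (F →+* PadicAlgCl p) → ℤ} (hu : HasSlopes p a π N u)
    {L : Type*} [Field L] (jp : L →+* PadicAlgCl p) (φ : F →+* L) :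
    u (jp.comp (cbar φ)) = -u (jp.comp φ) := by
  have h0 := norm_q_pos p a
  have h1 := norm_q_lt p ha
  set Q : ℝ := ‖(p : PadicAlgCl p) ^ a‖ with hQ
  have h2 : ‖(jp.comp φ) π‖ * ‖(jp.comp (cbar φ)) π‖ = Q := by
    rw [← norm_mul, hQ]
    congr 1
    change jp (φ π) * jp (φ (IsCMField.complexConj F π)) = _
    rw [← map_mul, ← map_mul, hw]
    simp only [map_pow, map_natCast]
  have h3 : ‖(jp.comp φ) π‖ ^ (2 * N) * ‖(jp.comp (cbar φ)) π‖ ^ (2 * N) = Q ^ (2 * N) := by
    rw [← mul_pow, h2]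
  rw [hu, hu, ← zpow_add₀ h0.ne', ← zpow_natCast] at h3
  have h4 := zpow_inj' h0 h1 h3
  push_cast at h4
  linarith

theorem free_of_single {ι : Type*} [Fintype ι] {F : ι → Type*} [∀ i, Field (F i)]
    [∀ i, NumberField (F i)] [∀ i, IsCMField (F i)]
    {L : Type*} [Field L] [NumberField L] [IsGalois ℚ L] (j : L →+* ℂ)
    (hind : ∀ i i', i ≠ i' → Indep (F i) (F i'))
    {e : ∀ i, (F i →+* L) → ℤ} (he : ∀ i φ, e i (cbar φ) = -e i φ)
    (hs : ∀ i, Single (e i)) : Free e := by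
  intro c hc hrel i
  refine hs i (c i) (hc i) ?_
  intro g
  refine indep (G := L ≃ₐ[ℚ] L) (fun i => F i →+* L) (fun i => cbar) e he
    (fun g i φ => rfl) ?_ c (fun g => ?_) i g
  · intro i i' hii φ ψ
    obtain ⟨σ, hσ1, hσ2⟩ := hind i i' hii (j.comp φ) (j.comp ψ)
    obtain ⟨g, hg⟩ := exists_gal j σ
    refine ⟨g, ?_, ?_⟩
    · ext x
      apply j.injective
      rw [emb_smul_apply, ← hg]
      exact hσ1 x
    · ext x
      apply j.injective
      rw [emb_smul_apply, ← hg]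
      have h1 := RingHom.congr_fun (comp_cbar j ψ) x
      rw [ComplexEmbedding.conjugate_coe_eq] at h1
      exact (hσ2 x).trans h1.symm
  · exact hrel g

/-- Automorphisms of a field restrict to a number field that is Galois over the rationals. -/
theorem exists_gal' {L C : Type*} [Field L] [NumberField L] [IsGalois ℚ L] [Field C] [CharZero C]
    (j : L →+* C) (σ : C ≃+* C) : ∃ g : L ≃ₐ[ℚ] L, ∀ x, σ (j x) = j (g x) := by
  let _ : Algebra L C := j.toAlgebra
  have _ : IsScalarTower ℚ L C := IsScalarTower.of_algebraMap_eq fun x => by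
    rw [eq_ratCast, eq_ratCast]
    exact (map_ratCast j x).symm
  let χ : C →ₐ[ℚ] C := (σ : C →+* C).toRatAlgHom
  refine ⟨AlgEquiv.ofBijective (χ.restrictNormal L) (AlgHom.normal_bijective ℚ L L _), fun x => ?_⟩
  exact (χ.restrictNormal_commutes L x).symm

/-- All embeddings into an algebraically closed field factor through `L`. -/
theorem factor {F L C : Type*} [Field F] [NumberField F] [Field L] [NumberField L] [Field C]
    [CharZero C] [IsAlgClosed C] (j : L →+* ℂ)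
    (h : ∀ ψ : F →+* ℂ, ∃ φ : F →+* L, j.comp φ = ψ) (jp : L →+* C) (τ : F →+* C) :
    ∃ φ : F →+* L, jp.comp φ = τ := by
  classical
  have hinj : Function.Injective (fun φ : F →+* L => jp.comp φ) := by
    intro φ φ' h
    ext x
    exact jp.injective (RingHom.congr_fun h x)
  have hbij : Function.Bijective (fun φ : F →+* L => jp.comp φ) := by
    rw [Fintype.bijective_iff_injective_and_card]
    exact ⟨hinj, by rw [card_emb j h, Embeddings.card]⟩
  exact hbij.2 τ

/-- The image of a group of automorphisms in the Galois group. -/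
def img' {L C : Type*} [Field L] [NumberField L] [Field C] (j : L →+* C)
    (H : Subgroup (C ≃+* C)) : Subgroup (L ≃ₐ[ℚ] L) where
  carrier := {g | ∃ σ ∈ H, ∀ x, σ (j x) = j (g x)}
  mul_mem' := by
    rintro a b ⟨σ, hσ, h⟩ ⟨τ, hτ, h'⟩
    refine ⟨σ * τ, H.mul_mem hσ hτ, fun x => ?_⟩
    rw [RingAut.mul_apply, h', h, AlgEquiv.mul_apply]
  one_mem' := ⟨1, H.one_mem, fun x => rfl⟩
  inv_mem' := by
    rintro a ⟨σ, hσ, h⟩
    refine ⟨σ⁻¹, H.inv_mem hσ, fun x => ?_⟩
    apply σ.injective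
    rw [h, ← AlgEquiv.mul_apply, mul_inv_cancel, AlgEquiv.one_apply]
    exact σ.apply_symm_apply _

theorem single_of_orbit {p : ℕ} [Fact p.Prime] {a : ℕ} (ha : 0 < a) {F : Type*} [Field F]
    [NumberField F] [IsCMField F] {π : F} (hw : π * IsCMField.complexConj F π = (p : F) ^ a)
    {N : ℕ} {u : (F →+* PadicAlgCl p) → ℤ} (hu : HasSlopes p a π N u)
    {r k : ℕ} (hr : r.Prime) (hr2 : r ≠ 2) (hdeg : finrank ℚ F = 2 * r ^ k)
    (H : Subgroup (PadicAlgCl p ≃+* PadicAlgCl p)) (τ : F →+* PadicAlgCl p)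
    (O : Finset (F →+* PadicAlgCl p))
    (hO : ∀ τ', τ' ∈ O ↔ ∃ σ ∈ H, τ' = (σ : PadicAlgCl p →+* PadicAlgCl p).comp τ)
    (hcard : O.card = r ^ k) (hnd : ¬ (r : ℤ) ∣ ∑ τ' ∈ O, u τ')
    {L : Type*} [Field L] [NumberField L] [IsGalois ℚ L] (j : L →+* ℂ)
    (h : ∀ ψ : F →+* ℂ, ∃ φ : F →+* L, j.comp φ = ψ) (jp : L →+* PadicAlgCl p) :
    Single (fun φ : F →+* L => u (jp.comp φ)) := by
  classical
  intro c hc hrel
  have _ : Fact r.Prime := ⟨hr⟩
  obtain ⟨φ₀, rfl⟩ := factor j h jp τ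
  have hinj : Function.Injective (fun φ : F →+* L => jp.comp φ) := by
    intro φ φ' h
    ext x
    exact jp.injective (RingHom.congr_fun h x)
  have hOimg : O = (Finset.univ.filter (fun φ => φ ∈ orbit (img' jp H) φ₀)).image
      (fun φ : F →+* L => jp.comp φ) := by
    ext τ'
    rw [hO, Finset.mem_image]
    constructor
    · rintro ⟨σ, hσ, rfl⟩
      obtain ⟨g, hg⟩ := exists_gal' jp σ
      refine ⟨g • φ₀, ?_, ?_⟩
      · rw [Finset.mem_filter]
        exact ⟨Finset.mem_univ _, ⟨⟨g, σ, hσ, hg⟩, rfl⟩⟩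
      · ext x
        change jp (g (φ₀ x)) = σ (jp (φ₀ x))
        rw [hg]
    · rintro ⟨φ, hφ, rfl⟩
      rw [Finset.mem_filter] at hφ
      obtain ⟨-, ⟨⟨g, σ, hσ, hg⟩, rfl⟩⟩ := hφ
      refine ⟨σ, hσ, ?_⟩
      ext x
      change jp (g (φ₀ x)) = σ (jp (φ₀ x))
      rw [hg]
  have hsum : ∑ τ' ∈ O, u τ' = ∑ φ ∈ Finset.univ.filter (fun φ => φ ∈ orbit (img' jp H) φ₀),
      u (jp.comp φ) := by
    rw [hOimg, Finset.sum_image (fun x _ y _ hxy => hinj hxy)]
  have hcard' : (orbit (img' jp H) φ₀).ncard = r ^ k := by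
    rw [← hcard, hOimg, Finset.card_image_of_injective _ hinj, ← Set.ncard_coe_finset]
    congr 1
    ext φ
    simp
  rw [hsum] at hnd
  exact core_orbit (inv := cbar) (G := L ≃ₐ[ℚ] L) (fun x => cbar_cbar x) (fun x => cbar_ne x)
    (fun g x => rfl) r k hr2 (by rw [card_emb j h, hdeg]) (img' jp H) φ₀ hcard' _
    (fun x => by rw [Finset.mem_filter]; exact ⟨fun h => h.2, fun h => ⟨Finset.mem_univ _, h⟩⟩)
    (fun φ => u (jp.comp φ)) c (fun x => slopes_cbar ha hw hu jp x) hc hnd hrel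

theorem single_of_disc {p : ℕ} [Fact p.Prime] {a : ℕ} (ha : 0 < a) {F : Type*} [Field F]
    [NumberField F] [IsCMField F] {π : F} (hw : π * IsCMField.complexConj F π = (p : F) ^ a)
    {N : ℕ} {u : (F →+* PadicAlgCl p) → ℤ} (hu : HasSlopes p a π N u) (hodd : ∀ τ, Odd (u τ))
    {k : ℕ} (hdeg : finrank ℚ F = 2 ^ (k + 1)) (hdisc : ¬ IsSquare (discr F))
    {L : Type*} [Field L] [NumberField L] [IsGalois ℚ L] (j : L →+* ℂ)
    (h : ∀ ψ : F →+* ℂ, ∃ φ : F →+* L, j.comp φ = ψ) (jp : L →+* PadicAlgCl p) :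
    Single (fun φ : F →+* L => u (jp.comp φ)) := by
  classical
  intro c hc hrel
  let e : (F →+* L) → ℤ := fun φ => u (jp.comp φ)
  have he : ∀ φ, e (cbar φ) = -e φ := fun φ => slopes_cbar ha hw hu jp φ
  refine core_odd_val (G := L ≃ₐ[ℚ] L) (Y := F →+* L) cbar cbar_cbar cbar_ne (fun g φ => rfl) k
    ?_ e he (fun φ => hodd _) ?_ c hc hrel
  · rw [card_emb j h, hdeg, pow_succ, mul_comm]
  · by_contra hall
    push Not at hall
    apply hdisc
    have hS := isSquare_of_sign j (fun _ : Unit => F) (fun _ => h) Finset.univ ?_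
    · simpa using hS
    intro σ
    have h2 := hall σ
    rw [Nat.not_odd_iff_even] at h2
    rw [Finset.univ_unique, Finset.prod_singleton]
    have hhalf : Pool.Agent.H925R2.IsHalf (R := F →+* L) cbar
        (Finset.univ.filter (fun φ => e φ % 4 = 1)) := by
      intro φ
      simp only [Finset.mem_filter, Finset.mem_univ, true_and]
      rw [he]
      obtain ⟨b, hb⟩ := hodd (jp.comp φ)
      change e φ = 2 * b + 1 at hb
      omega
    rw [sign_of_half (fun φ => cbar_cbar φ) _ hhalf (MulAction.toPerm σ) (fun φ => rfl)]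
    exact h2.neg_one_pow

end Pool.Agent.H977R3.WN
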