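import Mathlib
import Pool.Agent.H977R3.WN.Crit
import Pool.Agent.H977R3.WN.Quad
import Pool.Agent.H977R3.WN.Frob
import Pool.Agent.H204R3.GP.Defs

/-!
# One Frobenius element with admissible Weil numbers
-/

set_option linter.unusedSectionVars false

namespace Pool.Agent.H977R3.WN

open NumberField Module Pool.Agent.H204R3.CM Pool.Agent.H204R3.SP Pool.Agent.H204R3.GP
  Pool.Agent.H977R3.CM IntermediateField

/-- An admissible Weil number has slopes without relations. -/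
theorem exists_slopes {p : ℕ} [Fact p.Prime] {a : ℕ} (ha : 0 < a) {F : Type*} [Field F]
    [NumberField F] [IsCMField F] {π : F} (hw : π * IsCMField.complexConj F π = (p : F) ^ a)
    (hadm : Admissible p a π) :
    ∃ (N : ℕ) (u : (F →+* PadicAlgCl p) → ℤ), 0 < N ∧ HasSlopes p a π N u ∧
      ∀ (L : IntermediateField ℚ (AlgebraicClosure ℚ)) [NumberField L] [IsGalois ℚ L]
        (j : L →+* ℂ), (∀ ψ : F →+* ℂ, ∃ φ : F →+* L, j.comp φ = ψ) →
        ∀ jp : L →+* PadicAlgCl p, Single (fun φ : F →+* L => u (jp.comp φ)) := by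
  rcases hadm with ⟨r, k, hr, hr2, hdeg, N, u, H, τ, O, hN, hu, hO, hcard, hnd⟩ |
    ⟨k, hdeg, hdisc, N, hN⟩
  · exact ⟨N, u, hN, hu, fun L _ _ j h jp =>
      single_of_orbit ha hw hu hr hr2 hdeg H τ O hO hcard hnd j h jp⟩
  · choose u hu1 hu2 using hN
    have hNpos : 0 < N := by
      by_contra hN0
      have hN0' : N = 0 := by omega
      have h0 := norm_q_pos p a
      have h1 := norm_q_lt p ha
      let τ : F →+* PadicAlgCl p := ((IsAlgClosed.lift : F →ₐ[ℚ] PadicAlgCl p) : F →+* PadicAlgCl p)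
      have h2 := hu2 τ
      rw [hN0', mul_zero, pow_zero, Nat.cast_zero, zero_add, ← zpow_zero _] at h2
      have h3 := zpow_inj' h0 h1 h2
      obtain ⟨b, hb⟩ := hu1 τ
      omega
    exact ⟨N, u, hNpos, hu2, fun L _ _ j h jp =>
      single_of_disc ha hw hu2 hu1 hdeg hdisc j h jp⟩

theorem tate_of_admissible {k : Type*} [Field k] [CharZero k] {V : Type*} [AddCommGroup V]
    [Module k V] [FiniteDimensional k V]
    {p : ℕ} [Fact p.Prime] {a : ℕ} (ha : 0 < a)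
    {ι : Type*} [Fintype ι] {F : ι → Type} [∀ i, Field (F i)] [∀ i, NumberField (F i)]
    [∀ i, IsCMField (F i)] {π : ∀ i, F i} (hgen : ∀ i, ℚ⟮π i⟯ = ⊤)
    (hw : ∀ i, π i * IsCMField.complexConj (F i) (π i) = (p : F i) ^ a)
    (hadm : ∀ i, Admissible p a (π i)) (hcomp : ∀ i i', i ≠ i' → Compatible (F i) (F i'))
    {Γ : Type*} [Group Γ] (ρ : Representation k Γ V) (χ : Γ →* k)
    (ω : V →ₗ[k] V →ₗ[k] k) (halt : ∀ v, ω v v = 0) (hnd : ∀ u, (∀ v, ω v u = 0) → u = 0)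
    (hωρ : ∀ s u v, ω (ρ s u) (ρ s v) = χ s * ω u v)
    (hss : ∀ Δ : Subgroup Γ, Δ.FiniteIndex → SemiUnder (ρ '' (Δ : Set Γ)))
    (γ : Γ) (hχ : χ γ = (p : k) ^ a)
    (hγ : (ρ γ).charpoly = ∏ i, (minpoly ℚ (π i)).map (algebraMap ℚ k))
    {m : ℕ} (φ : MultilinearMap k (fun _ : Fin m × Fin 2 => V) k) (hφ : IsTate ρ χ m φ) :
    φ ∈ Submodule.span k (PT ρ χ m) := by
  have hex := fun i => exists_slopes ha (hw i) (hadm i)
  choose N u hN hu hs using hex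
  refine tate_of_free ha hgen hw hN hu ?_ ρ χ ω halt hnd hωρ hss γ hχ hγ φ hφ
  intro L _ _ j h jp
  exact free_of_single j (fun i i' hii => indep_of_compatible (hcomp i i' hii))
    (fun i φ => slopes_cbar ha (hw i) (hu i) jp φ) (fun i => hs i L j (h i) jp)

/-- The final form, for alternating forms on the powers. -/
theorem tateGenerated {k : Type} [Field k] [CharZero k] {V : Type} [AddCommGroup V]
    [Module k V] [FiniteDimensional k V]
    {p : ℕ} [Fact p.Prime] {a : ℕ} (ha : 0 < a)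
    {ι : Type} [Fintype ι] {F : ι → Type} [∀ i, Field (F i)] [∀ i, NumberField (F i)]
    [∀ i, IsCMField (F i)] {π : ∀ i, F i} (hgen : ∀ i, ℚ⟮π i⟯ = ⊤)
    (hw : ∀ i, π i * IsCMField.complexConj (F i) (π i) = (p : F i) ^ a)
    (hadm : ∀ i, Admissible p a (π i)) (hcomp : ∀ i i', i ≠ i' → Compatible (F i) (F i'))
    {Γ : Type} [Group Γ] (ρ : Representation k Γ V) (χ : Γ →* k)
    (ω : V →ₗ[k] V →ₗ[k] k) (halt : ∀ v, ω v v = 0) (hnd : ∀ u, (∀ v, ω v u = 0) → u = 0)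
    (hωρ : ∀ s u v, ω (ρ s u) (ρ s v) = χ s * ω u v)
    (hss : FiniteIndexSemisimple ρ)
    (γ : Γ) (hχ : χ γ = (p : k) ^ a)
    (hγ : (ρ γ).charpoly = ∏ i, (minpoly ℚ (π i)).map (algebraMap ℚ k)) :
    TateGeneratedInDegreeTwo ρ χ := by
  intro n m f hf
  obtain ⟨Δ, hΔ, hf⟩ := hf
  have hss' : ∀ Δ : Subgroup Γ, Δ.FiniteIndex → SemiUnder (ρ '' (Δ : Set Γ)) := by
    intro Δ hΔ U hU
    obtain ⟨U', h1, h2⟩ := hss Δ hΔ U (fun s hs u hu => hU _ ⟨s, hs, rfl⟩ u hu)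
    refine ⟨U', ?_, h2⟩
    rintro _ ⟨s, hs, rfl⟩ u hu
    exact h1 s hs u hu
  have h1 := altG_of_tate_mem ρ χ (n := n) (m := m) (fun φ hφ => tate_of_admissible ha hgen hw
    hadm hcomp ρ χ ω halt hnd hωρ hss' γ hχ hγ φ hφ) f Δ hΔ hf
  refine Submodule.span_mono ?_ h1
  rintro g ⟨B, hB, hg⟩
  refine ⟨B, fun l => ?_, hg⟩
  obtain ⟨Δ', hΔ', h2⟩ := hB l
  refine ⟨Δ', hΔ', fun s hs v => ?_⟩
  rw [pow_one]
  exact h2 s hs v

end Pool.Agent.H977R3.WN
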