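import Mathlib
import Pool.Agent.H868R3.TateTwoMain
import Pool.Agent.H977R3.WN.Balance

/-!
# Tate classes over finite fields: Weil numbers without relations

Abstract form of the theorem of helper868 (`Pool/Agent/H868R3/TateTwoMain.lean`).
-/

set_option linter.unusedSectionVars false

namespace Pool.Agent.H977R3.WN

open NumberField Module Pool.Agent.H925R2 Pool.Agent.H485R3 Pool.Agent.H204R3.CM
  Pool.Agent.H868R3.TwoOdd

noncomputable section

section

variable {I : Type*} [Fintype I] (p : ℕ) [Fact p.Prime] (K : I → Type*) [∀ i, Field (K i)]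
  [∀ i, NumberField (K i)] [∀ i, IsCMField (K i)]
  {L : Type*} [Field L] [NumberField L] [IsGalois ℚ L]

theorem counts_free
    (q : I → ℚ) (hq : ∀ i, 0 < q i) (π : ∀ i, K i)
    (hweil : ∀ i, ∀ φ : K i →+* ℂ, ‖φ (π i)‖ ^ 2 = (q i : ℝ))
    (κ : I → ℚ) (hκ : ∀ i, κ i ≠ 0) (o : ∀ i, (K i →+* PadicAlgCl p) → ℤ)
    (ho : ∀ i, ∀ τ : K i →+* PadicAlgCl p, 2 * (- Real.logb p ‖τ (π i)‖) -
      (- Real.logb p ‖(q i : PadicAlgCl p)‖) = (κ i : ℝ) * o i τ)
    (e : L →ₐ[ℚ] PadicAlgCl p)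
    (hfree : Free (F := K) (L := L) (fun i φ => o i ((e : L →+* PadicAlgCl p).comp φ))) {n : ℕ} (t : Fin n → I) (W : ∀ a, K (t a) →+* L)
    (s : ℕ) (hs : 0 < s)
    (hrel : (∏ a, W a (π (t a))) ^ (2 * s) = (∏ a, (q (t a) : L)) ^ s) (i : I) (φ : K i →+* L) :
    Nat.card {a // (⟨t a, W a⟩ : Σ i, (K i →+* L)) = ⟨i, φ⟩} =
      Nat.card {a // (⟨t a, W a⟩ : Σ i, (K i →+* L)) = ⟨i, cbar φ⟩} := by
  classical
  have hlogp : (- Real.log p : ℝ) ≠ 0 :=
    neg_ne_zero.2 (Real.log_pos (by exact_mod_cast (Fact.out : p.Prime).one_lt)).ne'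
  -- clear denominators
  let D : ℕ := ∏ i, (κ i).den
  have hD0 : (D : ℚ) ≠ 0 := by
    have h1 : D ≠ 0 := Finset.prod_ne_zero_iff.2 fun i _ => (κ i).den_nz
    exact_mod_cast h1
  have hD : ∀ i, ∃ m : ℤ, (m : ℚ) = κ i * D := by
    intro i
    obtain ⟨r, hr⟩ := Finset.dvd_prod_of_mem (fun i => (κ i).den) (Finset.mem_univ i)
    refine ⟨(κ i).num * r, ?_⟩
    have h1 : (D : ℚ) = (κ i).den * r := by
      have h2 : D = (κ i).den * r := hr
      exact_mod_cast h2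
    rw [h1, ← mul_assoc, Rat.mul_den_eq_num]
    push_cast
    rfl
  choose m hm using hD
  have hm0 : ∀ i, m i ≠ 0 := by
    intro i h0
    have h1 := hm i
    rw [h0, Int.cast_zero] at h1
    exact mul_ne_zero (hκ i) hD0 h1.symm
  let o' : ∀ i, (K i →+* L) → ℤ := fun i φ => o i ((e : L →+* PadicAlgCl p).comp φ)
  have hdev : ∀ i, ∀ τ : K i →+* PadicAlgCl p,
      dev p (q i) (τ (π i)) = - Real.log p * ((κ i : ℝ) * o i τ) := by
    intro i τ
    rw [dev_eq_val, ho]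
  have hoinv : ∀ i, ∀ φ : K i →+* L, o' i (cbar φ) = - o' i φ := by
    intro i φ
    have h1 := dev_inv p (hq i).ne' (((e : L →+* PadicAlgCl p).comp φ) (π i))
      ((map_ne_zero _).2 (weil_ne (hq i) (hweil i)))
    rw [← weil_cbar (hq i) (hweil i), hdev, hdev] at h1
    have h2 : (κ i : ℝ) ≠ 0 := by exact_mod_cast hκ i
    have h3 : (- Real.log p * (κ i : ℝ)) * (((o i (cbar ((e : L →+* PadicAlgCl p).comp φ)) : ℤ) : ℝ)
        + ((o i ((e : L →+* PadicAlgCl p).comp φ) : ℤ) : ℝ)) = 0 := by linarith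
    have h4 := (mul_eq_zero.1 h3).resolve_left (mul_ne_zero hlogp h2)
    have h5 : o i (cbar ((e : L →+* PadicAlgCl p).comp φ)) +
        o i ((e : L →+* PadicAlgCl p).comp φ) = 0 := by exact_mod_cast h4
    have h6 : (e : L →+* PadicAlgCl p).comp (cbar φ) =
        cbar ((e : L →+* PadicAlgCl p).comp φ) := rfl
    simp only [o', h6]
    omega
  let X := Σ i, (K i →+* L)
  let x : Fin n → X := fun a => ⟨t a, W a⟩
  let N : X → ℤ := fun y => ((Finset.univ.filter (fun a => x a = y)).card : ℤ)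
  let c : ∀ i, (K i →+* L) → ℤ := fun i φ => m i * (N ⟨i, φ⟩ - N ⟨i, cbar φ⟩)
  have hc : ∀ i, ∀ φ : K i →+* L, c i (cbar φ) = - c i φ := by
    intro i φ
    simp only [c, cbar_cbar]
    ring
  have hsumN : ∀ G : X → ℤ, ∑ y, N y * G y = ∑ a, G (x a) := by
    intro G
    rw [← Finset.sum_fiberwise Finset.univ x (fun a => G (x a))]
    refine Finset.sum_congr rfl fun y _ => ?_
    rw [Finset.sum_congr rfl (fun a ha => by rw [(Finset.mem_filter.1 ha).2])]
    rw [Finset.sum_const, nsmul_eq_mul]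
  have hrel' : ∀ g : L ≃ₐ[ℚ] L, ∑ i, ∑ φ, c i φ * o' i (g • φ) = 0 := by
    intro g
    have h1 := sum_dev p t q hq (fun a => g (W a (π (t a))))
      (fun a => (map_ne_zero g).2 ((map_ne_zero _).2 (weil_ne (hq _) (hweil _)))) s hs (by
        rw [← map_prod, ← map_pow, hrel, map_pow, map_prod]
        simp only [map_ratCast]) e
    have h2 : ∀ a, dev p (q (t a)) (e (g (W a (π (t a))))) =
        - Real.log p * ((κ (t a) : ℝ) * o' (t a) (g • W a)) := by
      intro a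
      exact hdev (t a) ((e : L →+* PadicAlgCl p).comp (g • W a))
    rw [Finset.sum_congr rfl (fun a _ => h2 a), ← Finset.mul_sum] at h1
    have h3 := (mul_eq_zero.1 h1).resolve_left hlogp
    have h4 : ∑ a, κ (t a) * (o' (t a) (g • W a) : ℚ) = 0 := by exact_mod_cast h3
    have h5 : ∑ a, m (t a) * o' (t a) (g • W a) = 0 := by
      have h6 : ((∑ a, m (t a) * o' (t a) (g • W a) : ℤ) : ℚ) = 0 := by
        push_cast
        have h7 : ∀ a, (m (t a) : ℚ) * (o' (t a) (g • W a) : ℚ) =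
            D * (κ (t a) * (o' (t a) (g • W a) : ℚ)) := by
          intro a
          rw [hm]
          ring
        rw [Finset.sum_congr rfl (fun a _ => h7 a), ← Finset.mul_sum, h4, mul_zero]
      exact_mod_cast h6
    have h8 := hsumN (fun y => m y.1 * o' y.1 (g • y.2))
    have h9 : ∑ y : X, N ⟨y.1, cbar y.2⟩ * (m y.1 * o' y.1 (g • y.2)) =
        - ∑ y : X, N y * (m y.1 * o' y.1 (g • y.2)) := by
      rw [← Finset.sum_neg_distrib]
      let E : X ≃ X :=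
        { toFun := fun y => ⟨y.1, cbar y.2⟩
          invFun := fun y => ⟨y.1, cbar y.2⟩
          left_inv := by
            rintro ⟨i, φ⟩
            simp only [cbar_cbar]
          right_inv := by
            rintro ⟨i, φ⟩
            simp only [cbar_cbar] }
      refine Fintype.sum_equiv E _ _ fun y => ?_
      have h10 : g • (cbar y.2) = cbar (g • y.2) := rfl
      change N ⟨y.1, cbar y.2⟩ * (m y.1 * o' y.1 (g • y.2)) =
        -(N ⟨y.1, cbar y.2⟩ * (m y.1 * o' y.1 (g • cbar y.2)))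
      rw [h10, hoinv]
      ring
    rw [← Fintype.sum_sigma (fun y : X => c y.1 y.2 * o' y.1 (g • y.2))]
    have h11 : ∀ y : X, c y.1 y.2 * o' y.1 (g • y.2) =
        N y * (m y.1 * o' y.1 (g • y.2)) - N ⟨y.1, cbar y.2⟩ * (m y.1 * o' y.1 (g • y.2)) := by
      intro y
      simp only [c]
      ring
    rw [Finset.sum_congr rfl (fun y _ => h11 y), Finset.sum_sub_distrib, h9, h8]
    change ∑ a, m (t a) * o' (t a) (g • W a) - -∑ a, m (t a) * o' (t a) (g • W a) = 0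
    rw [h5]
    simp
  have key := hfree c hc hrel' i φ
  have h1 := (mul_eq_zero.1 key).resolve_left (hm0 i)
  have hcard : ∀ y : X, (Nat.card {a // x a = y} : ℤ) = N y := by
    intro y
    rw [Nat.card_eq_fintype_card, Fintype.card_subtype]
  have h2 := hcard ⟨i, φ⟩
  have h3 := hcard ⟨i, cbar φ⟩
  have h4 : (Nat.card {a // x a = ⟨i, φ⟩} : ℤ) = (Nat.card {a // x a = ⟨i, cbar φ⟩} : ℤ) := by
    rw [h2, h3]
    linarith
  exact_mod_cast h4


end

section

variable {I : Type*} [Fintype I] (p : ℕ) [Fact p.Prime] (K : I → Type*) [∀ i, Field (K i)]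
  [∀ i, NumberField (K i)] [∀ i, IsCMField (K i)]

/-- The basic statement on multiplicative relations, in an algebraically closed field. -/
theorem balanced_free
    (q : I → ℚ) (hq : ∀ i, 0 < q i) (π : ∀ i, K i)
    (hgen : ∀ i, IntermediateField.adjoin ℚ {π i} = ⊤)
    (hweil : ∀ i, ∀ φ : K i →+* ℂ, ‖φ (π i)‖ ^ 2 = (q i : ℝ))
    (κ : I → ℚ) (hκ : ∀ i, κ i ≠ 0) (o : ∀ i, (K i →+* PadicAlgCl p) → ℤ)
    (ho : ∀ i, ∀ τ : K i →+* PadicAlgCl p, 2 * (- Real.logb p ‖τ (π i)‖) -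
      (- Real.logb p ‖(q i : PadicAlgCl p)‖) = (κ i : ℝ) * o i τ)
    (hfree : ∀ (L : IntermediateField ℚ (AlgebraicClosure ℚ)) [NumberField L] [IsGalois ℚ L]
      (j : L →+* ℂ), (∀ i, ∀ ψ : K i →+* ℂ, ∃ φ : K i →+* L, j.comp φ = ψ) →
      ∀ jp : L →+* PadicAlgCl p, Free (F := K) (L := L) (fun i φ => o i (jp.comp φ)))
    {Ω : Type*} [Field Ω] [IsAlgClosed Ω] [CharZero Ω]
    {n : ℕ} (t : Fin n → I) (s : ℕ) (hs : 0 < s) (c : Ω) (hc : c ^ 2 = ∏ a, (q (t a) : Ω))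
    (y : Fin n → Ω) (hy : ∀ a, y a ∈ {μ : Ω | ∃ σ : K (t a) →+* Ω, σ (π (t a)) = μ})
    (hprod : (∏ a, y a) ^ s = c ^ s) (i : I) (z : Ω)
    (hz : z ∈ {μ : Ω | ∃ σ : K i →+* Ω, σ (π i) = μ}) :
    Nat.card {a // t a = i ∧ y a = z} = Nat.card {a // t a = i ∧ y a = (q i : Ω) / z} := by
  classical
  obtain ⟨L, _, _, j, h⟩ := exists_galois K
  let e : L →ₐ[ℚ] PadicAlgCl p := IsAlgClosed.lift
  let jΩ : L →ₐ[ℚ] Ω := IsAlgClosed.lift
  have hlift : ∀ i, ∀ σ : K i →+* Ω, ∃ φ : K i →+* L, (jΩ : L →+* Ω).comp φ = σ := by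
    intro i
    have hinj : Function.Injective (fun φ : K i →+* L => (jΩ : L →+* Ω).comp φ) := by
      intro φ φ' hh
      ext x
      have h1 := RingHom.congr_fun hh x
      exact congrArg Subtype.val (jΩ.injective h1)
    have hbij : Function.Bijective (fun φ : K i →+* L => (jΩ : L →+* Ω).comp φ) := by
      rw [Fintype.bijective_iff_injective_and_card]
      exact ⟨hinj, by rw [card_emb j (h i), Embeddings.card]⟩
    exact hbij.2
  choose σ hσ using hy
  choose W hW using fun a => hlift (t a) (σ a)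
  obtain ⟨σz, hσz⟩ := hz
  obtain ⟨φ, hφ⟩ := hlift i σz
  have hWy : ∀ a, jΩ (W a (π (t a))) = y a := by
    intro a
    rw [← hσ a, ← hW a]
    rfl
  have hφz : jΩ (φ (π i)) = z := by
    rw [← hσz, ← hφ]
    rfl
  have hrel : (∏ a, W a (π (t a))) ^ (2 * s) = (∏ a, (q (t a) : L)) ^ s := by
    apply jΩ.injective
    change jΩ ((∏ a, W a (π (t a))) ^ (2 * s)) = jΩ ((∏ a, (q (t a) : L)) ^ s)
    rw [map_pow, map_prod, map_pow, map_prod]
    simp only [hWy, map_ratCast]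
    rw [mul_comm 2 s, pow_mul, hprod, ← hc, ← pow_mul, ← pow_mul, mul_comm]
  have key := counts_free p K q hq π hweil κ hκ o ho e (hfree L j h (e : L →+* PadicAlgCl p)) t W s hs hrel i φ
  have hiff : ∀ ψ : K i →+* L, ∀ w : Ω, jΩ (ψ (π i)) = w → ∀ a,
      (t a = i ∧ y a = w) ↔ (⟨t a, W a⟩ : Σ i, (K i →+* L)) = ⟨i, ψ⟩ := by
    intro ψ w hw a
    constructor
    · rintro ⟨h1, h2⟩
      obtain rfl := h1
      rw [← hWy a, ← hw] at h2
      have h3 : W a (π (t a)) = ψ (π (t a)) := jΩ.injective h2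
      rw [hom_ext_of_gen (hgen (t a)) h3]
    · intro h1
      have h2 : t a = i := congrArg Sigma.fst h1
      refine ⟨h2, ?_⟩
      obtain rfl := h2
      have h3 : W a = ψ := by
        have h4 := (Sigma.mk.inj_iff.1 h1).2
        exact eq_of_heq h4
      rw [← hWy a, ← hw, h3]
  have hcz : jΩ (cbar φ (π i)) = (q i : Ω) / z := by
    rw [weil_cbar (hq i) (hweil i), map_div₀, map_ratCast, hφz]
  rw [Nat.card_congr (Equiv.subtypeEquivRight (hiff φ z hφz)),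
    Nat.card_congr (Equiv.subtypeEquivRight (hiff (cbar φ) ((q i : Ω) / z) hcz))]
  exact key

theorem main_free
    (q : I → ℚ) (hq : ∀ i, 0 < q i) (π : ∀ i, K i)
    (hgen : ∀ i, IntermediateField.adjoin ℚ {π i} = ⊤)
    (hweil : ∀ i, ∀ φ : K i →+* ℂ, ‖φ (π i)‖ ^ 2 = (q i : ℝ))
    (κ : I → ℚ) (hκ : ∀ i, κ i ≠ 0) (o : ∀ i, (K i →+* PadicAlgCl p) → ℤ)
    (ho : ∀ i, ∀ τ : K i →+* PadicAlgCl p, 2 * (- Real.logb p ‖τ (π i)‖) -
      (- Real.logb p ‖(q i : PadicAlgCl p)‖) = (κ i : ℝ) * o i τ)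
    (hfree : ∀ (L : IntermediateField ℚ (AlgebraicClosure ℚ)) [NumberField L] [IsGalois ℚ L]
      (j : L →+* ℂ), (∀ i, ∀ ψ : K i →+* ℂ, ∃ φ : K i →+* L, j.comp φ = ψ) →
      ∀ jp : L →+* PadicAlgCl p, Free (F := K) (L := L) (fun i φ => o i (jp.comp φ)))
    {Ω : Type*} [Field Ω] [IsAlgClosed Ω] [CharZero Ω]
    (V : I → Type*) [∀ i, AddCommGroup (V i)] [∀ i, Module Ω (V i)]
    [∀ i, FiniteDimensional Ω (V i)] (F : ∀ i, V i →ₗ[Ω] V i)
    (hF : ∀ i, Submodule.span Ω {v : V i | ∃ σ : K i →+* Ω, F i v = σ (π i) • v} = ⊤)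
    {n : ℕ} (t : Fin n → I) (s : ℕ) (hs : 0 < s) (c : Ω) (hc : c ^ 2 = ∏ a, (q (t a) : Ω))
    (φ : MultilinearMap Ω (fun a => V (t a)) Ω)
    (hφ : ∀ v : ∀ a, V (t a), φ (fun a => (F (t a) ^ s) (v a)) = c ^ s * φ v) :
    φ ∈ Submodule.span Ω {ψ | IsProductOfPairings V F (fun i => (q i : Ω)) t ψ} := by
  refine multilinear_mixed V F (fun i => (q i : Ω))
    (fun i => {μ : Ω | ∃ σ : K i →+* Ω, σ (π i) = μ}) (conj_ne K q hq π hgen hweil)
    (fun i => Rat.cast_ne_zero.2 (hq i).ne') ?_ (conj_mem K q hq π hweil) t s c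
    (fun y hy hprod i z hz => balanced_free p K q hq π hgen hweil κ hκ o ho hfree t s hs c
      hc y hy hprod i z hz) φ hφ
  intro i
  rw [← hF i]
  congr 1
  ext v
  constructor
  · rintro ⟨μ, ⟨σ, rfl⟩, h⟩
    exact ⟨σ, h⟩
  · rintro ⟨σ, h⟩
    exact ⟨_, ⟨σ, rfl⟩, h⟩

end

end

end Pool.Agent.H977R3.WN
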