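import Mathlib
import Pool.Agent.H204R3.CM.Main
import Pool.Agent.H977R3.WN.Defs

/-!
# Good slope functions
-/

namespace Pool.Agent.H977R3.WN

open NumberField Module Pool.Agent.H204R3.CM

/-- The field `F` has degree `2 r ^ k` for an odd prime `r`, and some group of automorphisms of the
field `PadicAlgCl p` has an orbit of `r ^ k` embeddings of `F` over which the sum of `u` is prime
to `r`. -/
def OrbitGood {p : ℕ} [Fact p.Prime] {F : Type*} [Field F] [NumberField F]
    (u : (F →+* PadicAlgCl p) → ℤ) : Prop :=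
  ∃ (r k : ℕ) (H : Subgroup (PadicAlgCl p ≃+* PadicAlgCl p)) (τ : F →+* PadicAlgCl p)
    (O : Finset (F →+* PadicAlgCl p)), r.Prime ∧ r ≠ 2 ∧ finrank ℚ F = 2 * r ^ k ∧
    (∀ τ', τ' ∈ O ↔ ∃ σ ∈ H, τ' = (σ : PadicAlgCl p →+* PadicAlgCl p).comp τ) ∧
    O.card = r ^ k ∧ ¬ (r : ℤ) ∣ ∑ τ' ∈ O, u τ'

/-- The degree of `F` is a power of two, its discriminant is not a square, the values are odd. -/
def TwoGood {p : ℕ} [Fact p.Prime] {F : Type*} [Field F] [NumberField F]
    (u : (F →+* PadicAlgCl p) → ℤ) : Prop :=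
  ∃ k : ℕ, finrank ℚ F = 2 ^ (k + 1) ∧ ¬ IsSquare (discr F) ∧ ∀ τ, Odd (u τ)

open Classical in
/-- The sum of `u` over the embeddings that extend the embedding `τ` of the subfield `K`. -/
noncomputable def fibreSum {p : ℕ} [Fact p.Prime] {F : Type*} [Field F] [NumberField F]
    (K : IntermediateField ℚ F) (u : (F →+* PadicAlgCl p) → ℤ) (τ : K →+* PadicAlgCl p) : ℤ :=
  ∑ τ' : F →+* PadicAlgCl p, if τ'.comp (algebraMap K F) = τ then u τ' else 0

/-- There is a CM subfield `K` of `F` with `[F : K] = r ^ k`, `r` an odd prime that does not divide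
the degree of the Galois closure of `K`, such that modulo `r` the sums of `u` over the embeddings of
`F` that extend a given embedding of `K` satisfy no linear relation that is preserved by all
automorphisms (besides antisymmetry). -/
def TowerGood {p : ℕ} [Fact p.Prime] {F : Type*} [Field F] [NumberField F]
    (u : (F →+* PadicAlgCl p) → ℤ) : Prop :=
  ∃ (K : IntermediateField ℚ F) (_ : IsCMField K) (r k : ℕ), r.Prime ∧ r ≠ 2 ∧
    finrank K F = r ^ k ∧ ¬ r ∣ finrank ℚ (IntermediateField.normalClosure ℚ K ℂ) ∧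
    ∀ b : (K →+* PadicAlgCl p) → ZMod r, (∀ τ, b (cbar τ) = -b τ) →
      (∀ σ : PadicAlgCl p ≃+* PadicAlgCl p, ∑ τ : K →+* PadicAlgCl p,
        b τ * (fibreSum K u ((σ : PadicAlgCl p →+* PadicAlgCl p).comp τ) : ZMod r) = 0) →
      ∀ τ, b τ = 0

/-- One of the three conditions. -/
def Good {p : ℕ} [Fact p.Prime] {F : Type*} [Field F] [NumberField F]
    (u : (F →+* PadicAlgCl p) → ℤ) : Prop :=
  OrbitGood u ∨ TwoGood u ∨ TowerGood u

/-- `F` has a CM subfield `K` with `[F : K] = r ^ k`, where the odd prime `r` does not divide the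
degrees of the Galois closures of `K` and `F'`, and `K` and `F'` are independent. -/
def TowerOver (F F' : Type*) [Field F] [NumberField F] [Field F'] [NumberField F'] : Prop :=
  ∃ (K : IntermediateField ℚ F) (_ : IsCMField K) (r k : ℕ), r.Prime ∧ r ≠ 2 ∧
    finrank K F = r ^ k ∧ ¬ r ∣ finrank ℚ (IntermediateField.normalClosure ℚ K ℂ) ∧
    ¬ r ∣ finrank ℚ (IntermediateField.normalClosure ℚ F' ℂ) ∧ Indep K F'

/-- `F` and `F'` are independent, or one of two criteria for this holds. -/
def CompatibleT (F F' : Type*) [Field F] [NumberField F] [Field F'] [NumberField F'] : Prop :=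
  Compatible F F' ∨ TowerOver F F' ∨ TowerOver F' F

end Pool.Agent.H977R3.WN
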