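import Mathlib
import Pool.Agent.H977R3.WN.Crit
import Pool.Agent.H977R3.WN.Quad
import Pool.Agent.H977R3.WN.GoodDefs

/-!
# Good slope functions satisfy no relations
-/

set_option linter.unusedSectionVars false

namespace Pool.Agent.H977R3.WN

open NumberField Module MulAction Pool.Agent.H204R3.CM Pool.Agent.H204R3.SP Pool.Agent.H204R3.GP
  Pool.Agent.H977R3.CM

variable {p : ℕ} [Fact p.Prime] {F : Type*} [Field F] [NumberField F] [IsCMField F]
  {u : (F →+* PadicAlgCl p) → ℤ} {L : Type*} [Field L] [NumberField L] [IsGalois ℚ L]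

theorem single_orbitGood (hanti : ∀ τ, u (cbar τ) = -u τ) (hu : OrbitGood u) (j : L →+* ℂ)
    (h : ∀ ψ : F →+* ℂ, ∃ φ : F →+* L, j.comp φ = ψ) (jp : L →+* PadicAlgCl p) :
    Single (fun φ : F →+* L => u (jp.comp φ)) := by
  classical
  obtain ⟨r, k, H, τ, O, hr, hr2, hdeg, hO, hcard, hnd⟩ := hu
  intro c hc hrel
  have _ : Fact r.Prime := ⟨hr⟩
  obtain ⟨φ₀, rfl⟩ := factor j h jp τ
  have hinj : Function.Injective (fun φ : F →+* L => jp.comp φ) := by
    intro φ φ' h
    ext x
    exact jp.injective (RingHom.congr_fun h x)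
  have hOimg : O = (Finset.univ.filter (fun φ => φ ∈ orbit (img' jp H) φ₀)).image
      (fun φ : F →+* L => jp.comp φ) := by
    ext τ'
    rw [hO, Finset.mem_image]
    constructor
    · rintro ⟨σ, hσ, rfl⟩
      obtain ⟨g, hg⟩ := exists_gal' jp σ
      refine ⟨g • φ₀, ?_, ?_⟩
      · rw [Finset.mem_filter]
        exact ⟨Finset.mem_univ _, ⟨⟨g, σ, hσ, hg⟩, rfl⟩⟩
      · ext x
        change jp (g (φ₀ x)) = σ (jp (φ₀ x))
        rw [hg]
    · rintro ⟨φ, hφ, rfl⟩
      rw [Finset.mem_filter] at hφ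
      obtain ⟨-, ⟨⟨g, σ, hσ, hg⟩, rfl⟩⟩ := hφ
      refine ⟨σ, hσ, ?_⟩
      ext x
      change jp (g (φ₀ x)) = σ (jp (φ₀ x))
      rw [hg]
  have hsum : ∑ τ' ∈ O, u τ' = ∑ φ ∈ Finset.univ.filter (fun φ => φ ∈ orbit (img' jp H) φ₀),
      u (jp.comp φ) := by
    rw [hOimg, Finset.sum_image (fun x _ y _ hxy => hinj hxy)]
  have hcard' : (orbit (img' jp H) φ₀).ncard = r ^ k := by
    rw [← hcard, hOimg, Finset.card_image_of_injective _ hinj, ← Set.ncard_coe_finset]
    congr 1
    ext φ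
    simp
  rw [hsum] at hnd
  exact core_orbit (inv := cbar) (G := L ≃ₐ[ℚ] L) (fun x => cbar_cbar x) (fun x => cbar_ne x)
    (fun g x => rfl) r k hr2 (by rw [card_emb j h, hdeg]) (img' jp H) φ₀ hcard' _
    (fun x => by rw [Finset.mem_filter]; exact ⟨fun h => h.2, fun h => ⟨Finset.mem_univ _, h⟩⟩)
    (fun φ => u (jp.comp φ)) c (fun x => hanti (jp.comp x)) hc hnd hrel

theorem single_twoGood (hanti : ∀ τ, u (cbar τ) = -u τ) (hu : TwoGood u) (j : L →+* ℂ)
    (h : ∀ ψ : F →+* ℂ, ∃ φ : F →+* L, j.comp φ = ψ) (jp : L →+* PadicAlgCl p) :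
    Single (fun φ : F →+* L => u (jp.comp φ)) := by
  classical
  obtain ⟨k, hdeg, hdisc, hodd⟩ := hu
  intro c hc hrel
  let e : (F →+* L) → ℤ := fun φ => u (jp.comp φ)
  have he : ∀ φ, e (cbar φ) = -e φ := fun φ => hanti (jp.comp φ)
  refine core_odd_val (G := L ≃ₐ[ℚ] L) (Y := F →+* L) cbar cbar_cbar cbar_ne (fun g φ => rfl) k
    ?_ e he (fun φ => hodd _) ?_ c hc hrel
  · rw [card_emb j h, hdeg, pow_succ, mul_comm]
  · by_contra hall
    push Not at hall
    apply hdisc
    have hS := isSquare_of_sign j (fun _ : Unit => F) (fun _ => h) Finset.univ ?_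
    · simpa using hS
    intro σ
    have h2 := hall σ
    rw [Nat.not_odd_iff_even] at h2
    rw [Finset.univ_unique, Finset.prod_singleton]
    have hhalf : Pool.Agent.H925R2.IsHalf (R := F →+* L) cbar
        (Finset.univ.filter (fun φ => e φ % 4 = 1)) := by
      intro φ
      simp only [Finset.mem_filter, Finset.mem_univ, true_and]
      rw [he]
      obtain ⟨b, hb⟩ := hodd (jp.comp φ)
      change e φ = 2 * b + 1 at hb
      omega
    rw [sign_of_half (fun φ => cbar_cbar φ) _ hhalf (MulAction.toPerm σ) (fun φ => rfl)]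
    exact h2.neg_one_pow

/-- Every complex embedding of a subfield extends. -/
theorem exists_ext' (K : IntermediateField ℚ F) (τ : K →+* ℂ) :
    ∃ φ : F →+* ℂ, φ.comp (algebraMap K F) = τ := by
  let _ : Algebra K ℂ := τ.toAlgebra
  have _ : Algebra.IsAlgebraic K F := inferInstance
  let φ : F →ₐ[K] ℂ := IsAlgClosed.lift
  refine ⟨φ, ?_⟩
  ext x
  exact φ.commutes x

theorem restrict_surj (K : IntermediateField ℚ F) (j : L →+* ℂ)
    (h : ∀ ψ : F →+* ℂ, ∃ φ : F →+* L, j.comp φ = ψ) :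
    ∀ τ : K →+* ℂ, ∃ y : K →+* L, j.comp y = τ := by
  intro τ
  obtain ⟨ψ, rfl⟩ := exists_ext' K τ
  obtain ⟨φ, rfl⟩ := h ψ
  exact ⟨φ.comp (algebraMap K F), rfl⟩

theorem card_tower' (K : IntermediateField ℚ F) (j : L →+* ℂ)
    (h : ∀ ψ : F →+* ℂ, ∃ φ : F →+* L, j.comp φ = ψ) :
    Fintype.card (F →+* L) = Fintype.card (K →+* L) * finrank K F := by
  rw [card_emb j h, card_emb j (restrict_surj K j h)]
  exact (finrank_mul_finrank ℚ K F).symm

theorem single_towerGood (hanti : ∀ τ, u (cbar τ) = -u τ) (hu : TowerGood u) (j : L →+* ℂ)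
    (h : ∀ ψ : F →+* ℂ, ∃ φ : F →+* L, j.comp φ = ψ) (jp : L →+* PadicAlgCl p) :
    Single (fun φ : F →+* L => u (jp.comp φ)) := by
  classical
  obtain ⟨K, hK, r, k, hr, hr2, hdeg, hclos, hb⟩ := hu
  intro c hc hrel
  have _ : Fact r.Prime := ⟨hr⟩
  have h₀ := restrict_surj K j h
  have hno : NoOrder K r := noOrder_of_closure K r hr hclos
  by_contra hcon
  push Not at hcon
  obtain ⟨b₀, ⟨y₀, hy₀⟩, hb1, hb2⟩ := core_tower (G := L ≃ₐ[ℚ] L) (R := F →+* L) (R₀ := K →+* L)
    (inv := cbar) (inv₀ := cbar) (fun x => cbar_cbar x) (fun x => cbar_ne x) (fun g x => rfl)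
    (fun φ => φ.comp (algebraMap K F)) (fun g x => rfl) (fun x => cbar_restrict x j) r k
    (by rw [card_tower' K j h, hdeg]) (noOrder_gal j h₀ r hno)
    (fun φ => u (jp.comp φ)) c (fun x => hanti (jp.comp x)) hc hrel hcon
  -- transfer to the `p`-adic embeddings
  have hinj : Function.Injective (fun y : K →+* L => jp.comp y) := by
    intro φ φ' h
    ext x
    exact jp.injective (RingHom.congr_fun h x)
  have hbij : Function.Bijective (fun y : K →+* L => jp.comp y) :=
    ⟨hinj, factor j h₀ jp⟩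
  let E : (K →+* L) ≃ (K →+* PadicAlgCl p) := Equiv.ofBijective _ hbij
  have hE : ∀ y, E y = jp.comp y := fun y => rfl
  have hinjF : Function.Injective (fun y : F →+* L => jp.comp y) := by
    intro φ φ' h
    ext x
    exact jp.injective (RingHom.congr_fun h x)
  let EF : (F →+* L) ≃ (F →+* PadicAlgCl p) := Equiv.ofBijective _ ⟨hinjF, factor j h jp⟩
  have hfib : ∀ y : K →+* L, fibreSum K u (jp.comp y) =
      ∑ x : F →+* L, if x.comp (algebraMap K F) = y then u (jp.comp x) else 0 := by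
    intro y
    unfold fibreSum
    rw [← Equiv.sum_comp EF]
    refine Finset.sum_congr rfl fun x _ => ?_
    have h1 : ((EF x).comp (algebraMap K F) = jp.comp y) ↔ x.comp (algebraMap K F) = y := by
      constructor
      · intro h2
        exact hinj h2
      · rintro rfl
        rfl
    by_cases h2 : x.comp (algebraMap K F) = y
    · rw [if_pos h2, if_pos (h1.2 h2)]
      rfl
    · rw [if_neg h2, if_neg (fun h3 => h2 (h1.1 h3))]
  have hzero := hb (fun τ => b₀ (E.symm τ)) ?_ ?_ (E y₀)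
  · rw [Equiv.symm_apply_apply] at hzero
    exact hy₀ hzero
  · intro τ
    obtain ⟨y, rfl⟩ := E.surjective τ
    have h1 : cbar (E y) = E (cbar y) := rfl
    rw [h1, Equiv.symm_apply_apply, Equiv.symm_apply_apply, hb1]
  · intro σ
    obtain ⟨g, hg⟩ := exists_gal' jp σ
    rw [← Equiv.sum_comp E]
    have h1 : ∀ y : K →+* L, (σ : PadicAlgCl p →+* PadicAlgCl p).comp (E y) = jp.comp (g • y) := by
      intro y
      ext x
      change σ (jp (y x)) = jp (g (y x))
      rw [hg]
    simp only [Equiv.symm_apply_apply, h1, hfib]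
    rw [← hb2 g]
    have h2 : ∀ y : K →+* L, b₀ y * ((∑ x : F →+* L, if x.comp (algebraMap K F) = g • y then
        u (jp.comp x) else 0 : ℤ) : ZMod r) =
        ∑ x : F →+* L, if x.comp (algebraMap K F) = y then b₀ y * ((u (jp.comp (g • x)) : ℤ) : ZMod r)
          else 0 := by
      intro y
      rw [← Equiv.sum_comp (MulAction.toPerm g : Equiv.Perm (F →+* L))]
      push_cast
      rw [Finset.mul_sum]
      refine Finset.sum_congr rfl fun x _ => ?_
      have h3 : ((MulAction.toPerm g x).comp (algebraMap K F) = g • y) ↔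
          x.comp (algebraMap K F) = y := by
        constructor
        · intro h4
          exact smul_left_cancel g h4
        · rintro rfl
          rfl
      by_cases h4 : x.comp (algebraMap K F) = y
      · rw [if_pos h4, if_pos (h3.2 h4)]
        rfl
      · rw [if_neg h4, if_neg (fun h5 => h4 (h3.1 h5)), mul_zero]
    rw [Finset.sum_congr rfl (fun y _ => h2 y), Finset.sum_comm]
    refine Finset.sum_congr rfl fun x _ => ?_
    rw [Finset.sum_ite_eq, if_pos (Finset.mem_univ _)]

theorem single_good (hanti : ∀ τ, u (cbar τ) = -u τ) (hu : Good u) (j : L →+* ℂ)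
    (h : ∀ ψ : F →+* ℂ, ∃ φ : F →+* L, j.comp φ = ψ) (jp : L →+* PadicAlgCl p) :
    Single (fun φ : F →+* L => u (jp.comp φ)) := by
  rcases hu with hu | hu | hu
  · exact single_orbitGood hanti hu j h jp
  · exact single_twoGood hanti hu j h jp
  · exact single_towerGood hanti hu j h jp

end Pool.Agent.H977R3.WN
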