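import Mathlib
import Pool.Agent.H977R3.WN.Good

/-!
# Independence and towers
-/

set_option linter.unusedSectionVars false

namespace Pool.Agent.H977R3.WN

open NumberField Module MulAction Pool.Agent.H204R3.CM Pool.Agent.H977R3.CM Pool.Agent.H925R2

theorem indep_of_towerOver {F F' : Type} [Field F] [NumberField F] [IsCMField F] [Field F']
    [NumberField F'] [IsCMField F'] (h : TowerOver F F') : Indep F F' := by
  classical
  obtain ⟨K, hK, r, k, hr, hr2, hdeg, hclosK, hclos, hind⟩ := h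
  have _ : Fact r.Prime := ⟨hr⟩
  obtain ⟨L, hL1, hL2, j, h⟩ := exists_galois (Two F F')
  have h1 : ∀ ψ : F →+* ℂ, ∃ φ : F →+* L, j.comp φ = ψ := h true
  have h2 : ∀ ψ : F' →+* ℂ, ∃ φ : F' →+* L, j.comp φ = ψ := h false
  have h0 := restrict_surj K j h1
  intro φ ψ
  obtain ⟨φ₀, rfl⟩ := h1 φ
  obtain ⟨ψ₀, rfl⟩ := h2 ψ
  obtain ⟨σ₀, hσ1, hσ2⟩ := hind (j.comp (φ₀.comp (algebraMap K F))) (j.comp ψ₀)
  obtain ⟨g₀, hg₀⟩ := exists_gal j σ₀
  obtain ⟨S⟩ : Nonempty (Sylow r (L ≃ₐ[ℚ] L)) := inferInstance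
  have hno : NoOrder K r := noOrder_of_closure K r hr hclosK
  have hno' : NoOrder F' r := noOrder_of_closure F' r hr hclos
  have htr0 : ∀ s : L ≃ₐ[ℚ] L, s ∈ S → ∀ y : K →+* L, s • y = y := fun s hs y =>
    trivial_of_noOrder r (noOrder_gal j h0 r hno) (S : Subgroup _) S.isPGroup' s hs y
  have htr1 : ∀ s : L ≃ₐ[ℚ] L, s ∈ S → ∀ y : F' →+* L, s • y = y := fun s hs y =>
    trivial_of_noOrder r (noOrder_gal j h2 r hno') (S : Subgroup _) S.isPGroup' s hs y
  have hK1 : (g₀ • φ₀).comp (algebraMap K F) = φ₀.comp (algebraMap K F) := by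
    refine RingHom.ext fun x => ?_
    apply j.injective
    change j (g₀ (φ₀ (algebraMap K F x))) = j (φ₀ (algebraMap K F x))
    rw [← hg₀]
    exact hσ1 x
  have hF1 : g₀ • ψ₀ = cbar ψ₀ := by
    refine RingHom.ext fun x => ?_
    apply j.injective
    rw [emb_smul_apply, ← hg₀]
    have h3 := RingHom.congr_fun (comp_cbar j ψ₀) x
    rw [ComplexEmbedding.conjugate_coe_eq] at h3
    exact (hσ2 x).trans h3.symm
  obtain ⟨s, hs, hs1⟩ := fibre_transitive (G := L ≃ₐ[ℚ] L) (R := F →+* L) (R₀ := K →+* L)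
    (fun φ => φ.comp (algebraMap K F)) (fun g x => rfl) r k (by rw [card_tower' K j h1, hdeg])
    S htr0 (g₀ • φ₀) φ₀ hK1
  obtain ⟨σ, hσ⟩ := exists_aut j ((s * g₀ : L ≃ₐ[ℚ] L) : L ≃+* L)
  refine ⟨σ, fun x => ?_, fun y => ?_⟩
  · have h3 := RingHom.congr_fun hs1 x
    change σ (j (φ₀ x)) = j (φ₀ x)
    rw [hσ]
    exact congrArg j h3
  · have h3 := RingHom.congr_fun (htr1 s hs (g₀ • ψ₀)) y
    rw [hF1] at h3
    have h4 := RingHom.congr_fun (comp_cbar j ψ₀) y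
    rw [ComplexEmbedding.conjugate_coe_eq] at h4
    change σ (j (ψ₀ y)) = _
    rw [hσ]
    have h5 : ((s * g₀ : L ≃ₐ[ℚ] L) : L ≃+* L) (ψ₀ y) = s (g₀ (ψ₀ y)) := rfl
    have h6 : g₀ (ψ₀ y) = cbar ψ₀ y := RingHom.congr_fun hF1 y
    rw [h5, h6]
    exact (congrArg j h3).trans h4

theorem indep_of_compatibleT {F F' : Type} [Field F] [NumberField F] [IsCMField F] [Field F']
    [NumberField F'] [IsCMField F'] (h : CompatibleT F F') : Indep F F' := by
  rcases h with h | h | h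
  · exact indep_of_compatible h
  · exact indep_of_towerOver h
  · exact (indep_of_towerOver h).symm

end Pool.Agent.H977R3.WN
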