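import Mathlib
import Pool.Agent.H977R3.WN.Finite
import Pool.Agent.H977R3.WN.QuadT

/-!
# Tate classes over finite fields: good slope functions, compatible fields
-/

set_option linter.unusedSectionVars false

namespace Pool.Agent.H977R3.WN

open NumberField Module Pool.Agent.H925R2 Pool.Agent.H485R3 Pool.Agent.H204R3.CM
  Pool.Agent.H868R3.TwoOdd

noncomputable section

theorem anti_of_slopes {p : ℕ} [Fact p.Prime] {K : Type*} [Field K] [NumberField K] [IsCMField K]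
    {q : ℚ} (hq : 0 < q) {π : K} (hweil : ∀ φ : K →+* ℂ, ‖φ π‖ ^ 2 = (q : ℝ)) {κ : ℚ} (hκ : κ ≠ 0)
    {u : (K →+* PadicAlgCl p) → ℤ}
    (hu : ∀ τ : K →+* PadicAlgCl p, 2 * (- Real.logb p ‖τ π‖) -
      (- Real.logb p ‖(q : PadicAlgCl p)‖) = (κ : ℝ) * u τ) (τ : K →+* PadicAlgCl p) :
    u (cbar τ) = -u τ := by
  have h1 := hu τ
  have h2 := hu (cbar τ)
  have h3 : τ π ≠ 0 := (map_ne_zero τ).2 (weil_ne hq hweil)
  have h4 : (q : PadicAlgCl p) ≠ 0 := by exact_mod_cast hq.ne'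
  rw [weil_cbar hq hweil, norm_div, Real.logb_div (norm_ne_zero_iff.2 h4) (norm_ne_zero_iff.2 h3)]
    at h2
  have h5 : (κ : ℝ) * (((u (cbar τ) : ℤ) : ℝ) + ((u τ : ℤ) : ℝ)) = 0 := by linarith
  have h6 : (κ : ℝ) ≠ 0 := by exact_mod_cast hκ
  have h7 := (mul_eq_zero.1 h5).resolve_left h6
  have h8 : u (cbar τ) + u τ = 0 := by exact_mod_cast h7
  omega

theorem finite_good {I : Type} [Fintype I] (p : ℕ) [Fact p.Prime] (K : I → Type)
    [∀ i, Field (K i)] [∀ i, NumberField (K i)] [∀ i, IsCMField (K i)]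
    (q : I → ℚ) (hq : ∀ i, 0 < q i) (π : ∀ i, K i)
    (hgen : ∀ i, IntermediateField.adjoin ℚ {π i} = ⊤)
    (hweil : ∀ i, ∀ φ : K i →+* ℂ, ‖φ (π i)‖ ^ 2 = (q i : ℝ))
    (κ : I → ℚ) (hκ : ∀ i, κ i ≠ 0) (u : ∀ i, (K i →+* PadicAlgCl p) → ℤ)
    (hu : ∀ i, ∀ τ : K i →+* PadicAlgCl p, 2 * (- Real.logb p ‖τ (π i)‖) -
      (- Real.logb p ‖(q i : PadicAlgCl p)‖) = (κ i : ℝ) * u i τ)
    (hgood : ∀ i, Good (u i)) (hcomp : ∀ i i', i ≠ i' → CompatibleT (K i) (K i'))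
    {Ω : Type*} [Field Ω] [IsAlgClosed Ω] [CharZero Ω]
    (V : I → Type*) [∀ i, AddCommGroup (V i)] [∀ i, Module Ω (V i)]
    [∀ i, FiniteDimensional Ω (V i)] (F : ∀ i, V i →ₗ[Ω] V i)
    (hF : ∀ i, Submodule.span Ω {v : V i | ∃ σ : K i →+* Ω, F i v = σ (π i) • v} = ⊤)
    {n : ℕ} (t : Fin n → I) (s : ℕ) (hs : 0 < s) (c : Ω) (hc : c ^ 2 = ∏ a, (q (t a) : Ω))
    (φ : MultilinearMap Ω (fun a => V (t a)) Ω)
    (hφ : ∀ v : ∀ a, V (t a), φ (fun a => (F (t a) ^ s) (v a)) = c ^ s * φ v) :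
    φ ∈ Submodule.span Ω {ψ | IsProductOfPairings V F (fun i => (q i : Ω)) t ψ} := by
  refine main_free p K q hq π hgen hweil κ hκ u hu ?_ V F hF t s hs c hc φ hφ
  intro L _ _ j h jp
  exact free_of_single j (fun i i' hii => indep_of_compatibleT (hcomp i i' hii))
    (fun i φ => anti_of_slopes (hq i) (hweil i) (hκ i) (hu i) (jp.comp φ))
    (fun i => single_good (fun τ => anti_of_slopes (hq i) (hweil i) (hκ i) (hu i) τ) (hgood i)
      j (h i) jp)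

end

end Pool.Agent.H977R3.WN
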